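import Mathlib
import Pool.Agent.H16.CU1

namespace Pool.Agent.Results.MP_b82347_co.NotTight

open SimpleGraph H16.CU

/-- A graph whose vertices are taken from `W`: a vertex set `H.verts ⊆ W` and a set of edges
(`H.Adj`) between vertices of `H.verts`, i.e. a subgraph of the complete graph on `W`.
Two such graphs may overlap arbitrarily, and `G₁ ⊔ G₂` has vertex set `V₁ ∪ V₂` and
edge set `E₁ ∪ E₂`. -/
abbrev GraphIn (W : Type) := (⊤ : SimpleGraph W).Subgraph

/-- `H` is `k`-critical: its chromatic number is `k`, and every proper subgraph (fewer vertices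
or fewer edges) has chromatic number less than `k`. -/
def IsCritical {W : Type} (k : ℕ) (H : GraphIn W) : Prop :=
  H.coe.chromaticNumber = (k : ℕ∞) ∧
    ∀ H' : GraphIn W, H' < H → H'.coe.chromaticNumber < (k : ℕ∞)

/-- All values `χ(G₁ ∪ G₂)`, for `G₁` a finite `k`-critical graph and `G₂` a finite
`l`-critical graph. -/
def unionValues (k l : ℕ) : Set ℕ∞ :=
  {c | ∃ (W : Type) (_ : Finite W) (G₁ G₂ : GraphIn W),
    IsCritical k G₁ ∧ IsCritical l G₂ ∧ c = (G₁ ⊔ G₂).coe.chromaticNumber}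

/-- `f(k,l) = max χ(G₁ ∪ G₂)` (a supremum in `ℕ∞ = {0,1,2,...,∞}`). -/
noncomputable def f (k l : ℕ) : ℕ∞ := sSup (unionValues k l)

lemma colorable_of_lt {W : Type} {H : GraphIn W} {k : ℕ}
    (h : H.coe.chromaticNumber < ((k + 1 : ℕ) : ℕ∞)) : H.coe.Colorable k := by
  rw [← chromaticNumber_le_iff_colorable]
  push_cast at h
  exact Order.le_of_lt_add_one h

/-- extension of a colouring of a subgraph to all of `W` -/
lemma extend {W : Type} {H : GraphIn W} {m : ℕ} (hm : 0 < m) (h : H.coe.Colorable m) :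
    ∃ c : W → Fin m, ∀ a b, H.Adj a b → c a ≠ c b := by
  classical
  obtain ⟨col⟩ := h
  refine ⟨fun v => if hv : v ∈ H.verts then col ⟨v, hv⟩ else ⟨0, hm⟩, ?_⟩
  intro a b hab
  simp only [dif_pos hab.fst_mem, dif_pos hab.snd_mem]
  exact col.valid (v := ⟨a, hab.fst_mem⟩) (w := ⟨b, hab.snd_mem⟩) hab

/-- A `3`-critical graph is an odd cycle. -/
lemma cyc_of_critical {W : Type} {H : GraphIn W} (hH : IsCritical 3 H) :
    ∃ n p, Cyc H.spanningCoe n p := by
  have hnot : ¬ H.coe.Colorable 2 := by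
    intro h
    have := chromaticNumber_le_iff_colorable.2 h
    rw [hH.1] at this
    exact absurd this (by norm_num)
  obtain ⟨n, hn, p, hp, hp0, hinj⟩ := exists_odd_cycle H.coe hnot
  let H' : GraphIn W :=
    { verts := H.verts
      Adj := fun a b => ∃ i < n, (a = (p i : W) ∧ b = (p (i+1) : W)) ∨
        (b = (p i : W) ∧ a = (p (i+1) : W))
      adj_sub := by
        rintro a b ⟨i, hi, h⟩
        have h1 : H.Adj (p i : W) (p (i+1) : W) := hp i hi
        rcases h with ⟨rfl, rfl⟩ | ⟨rfl, rfl⟩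
        · exact h1.adj_sub
        · exact h1.adj_sub.symm
      edge_vert := by
        rintro a b ⟨i, hi, h⟩
        rcases h with ⟨rfl, rfl⟩ | ⟨rfl, rfl⟩
        · exact (p i).2
        · exact (p (i+1)).2
      symm := ⟨by
        rintro a b ⟨i, hi, h⟩
        exact ⟨i, hi, h.symm⟩⟩ }
  have hle : H' ≤ H := by
    refine ⟨le_refl _, ?_⟩
    rintro a b ⟨i, hi, h⟩
    have h1 : H.Adj (p i : W) (p (i+1) : W) := hp i hi
    rcases h with ⟨rfl, rfl⟩ | ⟨rfl, rfl⟩
    · exact h1
    · exact h1.symm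
  have heq : H' = H := by
    by_contra hne
    have hlt := hH.2 H' (lt_of_le_of_ne hle hne)
    have hcol : H'.coe.Colorable 2 := colorable_of_lt hlt
    obtain ⟨c, hc⟩ := extend (by norm_num) hcol
    have halt : ∀ i < n, c (p i : W) ≠ c (p (i+1) : W) := fun i hi =>
      hc _ _ ⟨i, hi, Or.inl ⟨rfl, rfl⟩⟩
    have hpar : ∀ i ≤ n, (c (p i : W) = c (p 0 : W) ↔ Even i) := by
      intro i
      induction i with
      | zero => simp
      | succ i ih =>
        intro hi
        have h1 := halt i (by omega)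
        have h2 := ih (by omega)
        rw [Nat.even_add_one, ← h2]
        constructor
        · intro h3 h4
          exact h1 (h4.trans h3.symm)
        · intro h3
          generalize c (p i : W) = u at *
          generalize c (p (i+1) : W) = v at *
          generalize c (p 0 : W) = w at *
          omega
    have h3 := (hpar n le_rfl).1 (by rw [hp0])
    exact (Nat.not_even_iff_odd.2 hn) h3
  refine ⟨n, fun i => (p i : W), ⟨hn, by simp only [hp0], ?_, ?_⟩⟩
  · intro i hi j hj h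
    exact hinj i hi j hj (Subtype.ext h)
  · intro a b hab
    have h1 : H'.Adj a b := by rw [heq]; exact hab
    exact h1

/-- every vertex of an `(m+1)`-critical graph, `m ≥ 3`, has three distinct neighbours -/
lemma three_nbrs {W : Type} {H : GraphIn W} {m : ℕ} (hm : 3 ≤ m) (hH : IsCritical (m+1) H)
    {x : W} (hx : x ∈ H.verts) :
    ∃ y : Fin 3 → W, Function.Injective y ∧ ∀ i, H.Adj x (y i) := by
  classical
  have hlt : H.deleteVerts {x} < H := by
    refine lt_of_le_of_ne (Subgraph.deleteVerts_le) ?_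
    intro h
    have : x ∈ (H.deleteVerts {x}).verts := by rw [h]; exact hx
    simp at this
  obtain ⟨c, hc⟩ := extend (by omega) (colorable_of_lt (hH.2 _ hlt))
  have hall : ∀ j : Fin m, ∃ y, H.Adj x y ∧ c y = j := by
    intro j
    by_contra hcon
    push Not at hcon
    have hcol : H.coe.Colorable m := by
      refine ⟨SimpleGraph.Coloring.mk (fun v => if (v : W) = x then j else c v) ?_⟩
      rintro ⟨a, ha⟩ ⟨b, hb⟩ hab he
      have hab' : H.Adj a b := hab
      simp only at he
      by_cases hax : a = x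
      · have hbx : b ≠ x := fun h => hab'.ne (hax.trans h.symm)
        rw [if_pos hax, if_neg hbx] at he
        subst hax
        exact hcon b hab' he.symm
      · by_cases hbx : b = x
        · rw [if_neg hax, if_pos hbx] at he
          subst hbx
          exact hcon a hab'.symm he
        · rw [if_neg hax, if_neg hbx] at he
          refine hc a b ?_ he
          rw [Subgraph.deleteVerts_adj]
          exact ⟨ha, hax, hb, hbx, hab'⟩
    have := chromaticNumber_le_iff_colorable.2 hcol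
    rw [hH.1] at this
    have h2 : ((m + 1 : ℕ) : ℕ∞) ≤ (m : ℕ) := this
    have h3 : m + 1 ≤ m := by exact_mod_cast h2
    omega
  choose y hy1 hy2 using hall
  refine ⟨fun i => y ⟨i.1, by omega⟩, ?_, fun i => hy1 _⟩
  intro i j h
  have h1 := congrArg c h
  simp only [hy2, Fin.mk.injEq] at h1
  exact Fin.ext h1

/-- an edge-deleted colouring -/
lemma near_of_critical {W : Type} {H : GraphIn W} {m : ℕ} (hm : 3 ≤ m)
    (hH : IsCritical (m+1) H) {x y : W} (hxy : H.Adj x y) :
    ∃ c : W → Fin m, Near H.spanningCoe x y c := by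
  have hlt : H.deleteEdges {s(x, y)} < H := by
    refine lt_of_le_of_ne (Subgraph.deleteEdges_le _) ?_
    intro h
    have : (H.deleteEdges {s(x, y)}).Adj x y := by rw [h]; exact hxy
    simp at this
  obtain ⟨c, hc⟩ := extend (by omega) (colorable_of_lt (hH.2 _ hlt))
  refine ⟨c, ?_⟩
  intro a b hab he
  by_contra hcon
  refine hc a b ?_ he
  rw [Subgraph.deleteEdges_adj]
  refine ⟨hab, ?_⟩
  simp only [Set.mem_singleton_iff, Sym2.eq_iff]
  exact hcon

theorem union_colorable {W : Type} {G₁ G₂ : GraphIn W} {m : ℕ} (hm : 3 ≤ m)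
    (h1 : IsCritical 3 G₁) (h2 : IsCritical (m+1) G₂) :
    (G₁ ⊔ G₂).coe.Colorable (2 * m) := by
  obtain ⟨n, p, hC⟩ := cyc_of_critical h1
  have hne : G₂.verts.Nonempty := by
    by_contra hcon
    rw [Set.not_nonempty_iff_eq_empty] at hcon
    have : IsEmpty G₂.verts := by rw [hcon]; infer_instance
    have h3 := h2.1
    rw [chromaticNumber_eq_zero_of_isEmpty] at h3
    have h4 : ((0:ℕ) : ℕ∞) = ((m + 1 : ℕ) : ℕ∞) := by exact_mod_cast h3
    have : 0 = m + 1 := by exact_mod_cast h4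
    omega
  obtain ⟨x, hx⟩ := hne
  obtain ⟨y, hyi, hy⟩ := three_nbrs hm h2 hx
  have hc := fun i => near_of_critical hm h2 (hy i)
  choose c hc using hc
  have hcol := core (G2 := G₂.spanningCoe) hC hm y hyi hy c hc
  obtain ⟨col⟩ := hcol
  refine ⟨SimpleGraph.Coloring.mk (fun v => col (v : W)) ?_⟩
  rintro ⟨a, ha⟩ ⟨b, hb⟩ hab
  have hab' : (G₁ ⊔ G₂).Adj a b := hab
  apply col.valid
  rw [Subgraph.sup_adj] at hab'
  exact hab'

/-- For every `l ≥ 4`, the union of a `3`-critical graph and an `l`-critical graph is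
`2(l-1)`-colourable, so `f(3,l) ≤ (3-1)(l-1)`; hence the formula `f(k,l) = (k-1)(l-1)+1`
fails (already for `(k,l) = (3,4)`). -/
theorem result :
    (∀ l : ℕ, 4 ≤ l → f 3 l ≤ (((3 - 1) * (l - 1) : ℕ) : ℕ∞)) ∧
    (∀ l : ℕ, 4 ≤ l → ∀ (W : Type), Finite W → ∀ G₁ G₂ : GraphIn W,
      IsCritical 3 G₁ → IsCritical l G₂ → (G₁ ⊔ G₂).coe.Colorable ((3 - 1) * (l - 1))) ∧
    ¬ (∀ k l : ℕ, 2 ≤ k → 2 ≤ l → f k l = (((k - 1) * (l - 1) + 1 : ℕ) : ℕ∞)) := by
  have main : ∀ l : ℕ, 4 ≤ l → ∀ (W : Type), Finite W → ∀ G₁ G₂ : GraphIn W,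
      IsCritical 3 G₁ → IsCritical l G₂ → (G₁ ⊔ G₂).coe.Colorable ((3 - 1) * (l - 1)) := by
    intro l hl W _ G₁ G₂ h1 h2
    obtain ⟨m, rfl⟩ : ∃ m, l = m + 1 := ⟨l - 1, by omega⟩
    have := union_colorable (m := m) (by omega) h1 h2
    simpa using this
  have hf : ∀ l : ℕ, 4 ≤ l → f 3 l ≤ (((3 - 1) * (l - 1) : ℕ) : ℕ∞) := by
    intro l hl
    apply sSup_le
    rintro c ⟨W, hW, G₁, G₂, h1, h2, rfl⟩
    exact chromaticNumber_le_iff_colorable.2 (main l hl W hW G₁ G₂ h1 h2)
  refine ⟨hf, main, ?_⟩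
  intro h
  have h1 := hf 4 le_rfl
  rw [h 3 4 (by norm_num) (by norm_num)] at h1
  have h2 : (3 - 1) * (4 - 1) + 1 ≤ (3 - 1) * (4 - 1) := by exact_mod_cast h1
  omega

end Pool.Agent.Results.MP_b82347_co.NotTight
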